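import Mathlib
import Pool.Agent.Q147.Plastic

/-!
# MP_4fc6a2_gt : no dense analytic subgroup of the line is plastic

`IsPlastic X` (defined in `Pool.Agent.Q147.Plastic`) says that every non-expansive bijection
`X → X` is an isometry.
-/

namespace Pool.Agent.Results.MP_4fc6a2_gt.NoAnalyticPlastic

open Set MeasureTheory Topology Pool.Agent.Q147.Plastic

/-- Q2: no dense analytic subgroup of `ℝ` is plastic; more generally no dense subgroup of `ℝ` of
Lebesgue outer measure zero is plastic. Q1: there is a separable normed space which contains no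
dense analytic subgroup that is plastic. -/
theorem result :
    (∀ H : AddSubgroup ℝ, Dense (H : Set ℝ) → AnalyticSet (H : Set ℝ) → ¬ IsPlastic H) ∧
    (∀ H : AddSubgroup ℝ, Dense (H : Set ℝ) → volume (H : Set ℝ) = 0 → ¬ IsPlastic H) ∧
    ∃ (E : Type) (_ : NormedAddCommGroup E) (_ : NormedSpace ℝ E),
      TopologicalSpace.SeparableSpace E ∧
        ∀ H : AddSubgroup E, Dense (H : Set E) → AnalyticSet (H : Set E) → ¬ IsPlastic H :=
  ⟨not_plastic_analytic, not_plastic_of_null,
    ℝ, inferInstance, inferInstance, inferInstance, not_plastic_analytic⟩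

end Pool.Agent.Results.MP_4fc6a2_gt.NoAnalyticPlastic
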